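import Pool.Agent.C75W.Im

/-!
Interval arithmetic with natural magnitudes, made for fast evaluation by the kernel, and its
soundness over the real numbers.  The unit is `2^-28`.
-/

set_option autoImplicit false
noncomputable section
namespace Pool.Agent.Helper6.MONO

/-- interval with natural magnitudes in units of 2^-28: `pos l h = [l,h]`, `neg l h = [-h,-l]`,
`mix l h = [-l,h]` -/
inductive I where
  | pos : Nat → Nat → I
  | neg : Nat → Nat → I
  | mix : Nat → Nat → I

namespace I

def mixS (l h : Nat) : I := I.mix h l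
def opp (x : I) : I := I.rec (motive := fun _ => I) I.neg I.pos mixS x

def difN (l h l' h' : Nat) : I := I.neg (Nat.sub l' h) (Nat.sub h' l)
def difX (l h l' h' : Nat) : I := I.mix (Nat.sub h' l) (Nat.sub h l')
def difP (l h l' h' : Nat) : I := I.pos (Nat.sub l h') (Nat.sub h l')
def dif0 (l h l' h' : Nat) : I :=
  Bool.rec (motive := fun _ => Nat → Nat → Nat → Nat → I) difX difN (Nat.ble h l') l h l' h'
/-- `[l - h', h - l']` -/
def dif (l h l' h' : Nat) : I :=
  Bool.rec (motive := fun _ => Nat → Nat → Nat → Nat → I) dif0 difP (Nat.ble h' l) l h l' h'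
def difS (l' h' l h : Nat) : I :=
  Bool.rec (motive := fun _ => Nat → Nat → Nat → Nat → I) dif0 difP (Nat.ble h' l) l h l' h'
def pmxX (l h l' h' : Nat) : I := I.mix (Nat.sub l' l) (Nat.add h h')
def pmxP (l h l' h' : Nat) : I := I.pos (Nat.sub l l') (Nat.add h h')
/-- `[l - l', h + h']` -/
def pmx (l h l' h' : Nat) : I :=
  Bool.rec (motive := fun _ => Nat → Nat → Nat → Nat → I) pmxX pmxP (Nat.ble l' l) l h l' h'
def pmxS (l' h' l h : Nat) : I :=
  Bool.rec (motive := fun _ => Nat → Nat → Nat → Nat → I) pmxX pmxP (Nat.ble l' l) l h l' h'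
def nmxX (l h l' h' : Nat) : I := I.mix (Nat.add h l') (Nat.sub h' l)
def nmxN (l h l' h' : Nat) : I := I.neg (Nat.sub l h') (Nat.add h l')
/-- `[-(h + l'), h' - l]` -/
def nmx (l h l' h' : Nat) : I :=
  Bool.rec (motive := fun _ => Nat → Nat → Nat → Nat → I) nmxX nmxN (Nat.ble h' l) l h l' h'
def nmxS (l' h' l h : Nat) : I :=
  Bool.rec (motive := fun _ => Nat → Nat → Nat → Nat → I) nmxX nmxN (Nat.ble h' l) l h l' h'
def addPP (l h l' h' : Nat) : I := I.pos (Nat.add l l') (Nat.add h h')
def addNN (l h l' h' : Nat) : I := I.neg (Nat.add l l') (Nat.add h h')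
def addXX (l h l' h' : Nat) : I := I.mix (Nat.add l l') (Nat.add h h')

-- the minors below receive (l' h' of y) first, then l h of x
def addP (l h : Nat) (y : I) : I :=
  I.rec (motive := fun _ => Nat → Nat → I) addPP difS pmxS y l h
def addN (l h : Nat) (y : I) : I :=
  I.rec (motive := fun _ => Nat → Nat → I) dif addNN nmxS y l h
def addX (l h : Nat) (y : I) : I :=
  I.rec (motive := fun _ => Nat → Nat → I) pmx nmx addXX y l h
def add (x y : I) : I := I.rec (motive := fun _ => I → I) addP addN addX x y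
def subXP (l' h' l h : Nat) : I := pmx l h h' l'
def subXN (l' h' l h : Nat) : I := nmx l h h' l'
def subXX (l' h' l h : Nat) : I := I.mix (Nat.add l h') (Nat.add h l')
def subP (l h : Nat) (y : I) : I :=
  I.rec (motive := fun _ => Nat → Nat → I) difS addPP subXP y l h
def subN (l h : Nat) (y : I) : I :=
  I.rec (motive := fun _ => Nat → Nat → I) addNN dif subXN y l h
def subX (l h : Nat) (y : I) : I :=
  I.rec (motive := fun _ => Nat → Nat → I) nmx pmx subXX y l h
def sub (x y : I) : I := I.rec (motive := fun _ => I → I) subP subN subX x y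

def mpp (l h l' h' : Nat) : I :=
  I.pos (Nat.shiftRight (Nat.mul l l') (nat_lit 28))
    (Nat.succ (Nat.shiftRight (Nat.mul h h') (nat_lit 28)))
def mpn (l h l' h' : Nat) : I :=
  I.neg (Nat.shiftRight (Nat.mul l l') (nat_lit 28))
    (Nat.succ (Nat.shiftRight (Nat.mul h h') (nat_lit 28)))
/-- `[0,h] * [-l', h']`, args `l' h' _ h` -/
def mxp (l' h' _l h : Nat) : I :=
  I.mix (Nat.succ (Nat.shiftRight (Nat.mul h l') (nat_lit 28)))
    (Nat.succ (Nat.shiftRight (Nat.mul h h') (nat_lit 28)))
def mxn (l' h' _l h : Nat) : I :=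
  I.mix (Nat.succ (Nat.shiftRight (Nat.mul h h') (nat_lit 28)))
    (Nat.succ (Nat.shiftRight (Nat.mul h l') (nat_lit 28)))
def mpx (_l' h' l h : Nat) : I :=
  I.mix (Nat.succ (Nat.shiftRight (Nat.mul h' l) (nat_lit 28)))
    (Nat.succ (Nat.shiftRight (Nat.mul h' h) (nat_lit 28)))
def mnx (_l' h' l h : Nat) : I :=
  I.mix (Nat.succ (Nat.shiftRight (Nat.mul h' h) (nat_lit 28)))
    (Nat.succ (Nat.shiftRight (Nat.mul h' l) (nat_lit 28)))
def mx (a b : Nat) : Nat := Nat.add a (Nat.sub b a)
def mxx (l h l' h' : Nat) : I :=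
  I.mix (Nat.succ (Nat.shiftRight (mx (Nat.mul l h') (Nat.mul h l')) (nat_lit 28)))
    (Nat.succ (Nat.shiftRight (mx (Nat.mul l l') (Nat.mul h h')) (nat_lit 28)))
def mulP (l h : Nat) (y : I) : I :=
  I.rec (motive := fun _ => Nat → Nat → I) mpp mpn mxp y l h
def mulN (l h : Nat) (y : I) : I :=
  I.rec (motive := fun _ => Nat → Nat → I) mpn mpp mxn y l h
def mulX (l h : Nat) (y : I) : I :=
  I.rec (motive := fun _ => Nat → Nat → I) mpx mnx mxx y l h
def mul (x y : I) : I := I.rec (motive := fun _ => I → I) mulP mulN mulX x y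

def sqrP (l h : Nat) : I :=
  I.pos (Nat.shiftRight (Nat.mul l l) (nat_lit 28))
    (Nat.succ (Nat.shiftRight (Nat.mul h h) (nat_lit 28)))
def sqrX1 (m : Nat) : I :=
  I.pos (nat_lit 0) (Nat.succ (Nat.shiftRight (Nat.mul m m) (nat_lit 28)))
def sqrX (l h : Nat) : I := sqrX1 (mx l h)
def sqr (x : I) : I := I.rec (motive := fun _ => I) sqrP sqrP sqrX x

def invP (l h : Nat) : I :=
  I.pos (Nat.div (nat_lit 72057594037927936) h)
    (Nat.succ (Nat.div (nat_lit 72057594037927936) l))
def invB (_l _h : Nat) : I :=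
  I.mix (nat_lit 1152921504606846976) (nat_lit 1152921504606846976)
/-- inverse of a positive interval; `2^56 = 72057594037927936` -/
def inv (x : I) : I := I.rec (motive := fun _ => I) invP invB invB x

def dblP (l h : Nat) : I := I.pos (Nat.mul (nat_lit 2) l) (Nat.mul (nat_lit 2) h)
def dblN (l h : Nat) : I := I.neg (Nat.mul (nat_lit 2) l) (Nat.mul (nat_lit 2) h)
def dblX (l h : Nat) : I := I.mix (Nat.mul (nat_lit 2) l) (Nat.mul (nat_lit 2) h)
def dbl (x : I) : I := I.rec (motive := fun _ => I) dblP dblN dblX x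

/-- sign: `e = true` gives `x` -/
def sg (e : Bool) (x : I) : I := Bool.rec (motive := fun _ => I → I) opp (fun x => x) e x

end I

open I

/-- the interval is positive, away from `0` -/
def isPosP (l _h : Nat) : Bool := Nat.ble (nat_lit 1) l
def isPosB (_l _h : Nat) : Bool := false
def isPos (x : I) : Bool := I.rec (motive := fun _ => Bool) isPosP isPosB isPosB x
/-- the interval is negative, away from `0` -/
def isNeg (x : I) : Bool := I.rec (motive := fun _ => Bool) isPosB isPosP isPosB x

def le2 (l h l' h' : Nat) : Bool :=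
  Bool.rec (motive := fun _ => Bool) false (Nat.ble h h') (Nat.ble l' l)
def le2S (l' h' l h : Nat) : Bool :=
  Bool.rec (motive := fun _ => Bool) false (Nat.ble h h') (Nat.ble l' l)
def leF (_ _ _ _ : Nat) : Bool := false
def lePX (_l' h' _l h : Nat) : Bool := Nat.ble h h'
def leNX (l' _h' _l h : Nat) : Bool := Nat.ble h l'
def leXX (l' h' l h : Nat) : Bool :=
  Bool.rec (motive := fun _ => Bool) false (Nat.ble h h') (Nat.ble l l')
def leP (l h : Nat) (y : I) : Bool :=
  I.rec (motive := fun _ => Nat → Nat → Bool) le2S leF lePX y l h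
def leN (l h : Nat) (y : I) : Bool :=
  I.rec (motive := fun _ => Nat → Nat → Bool) leF le2S leNX y l h
def leX (l h : Nat) (y : I) : Bool :=
  I.rec (motive := fun _ => Nat → Nat → Bool) leF leF leXX y l h
/-- `x ⊆ y` -/
def le (x y : I) : Bool := I.rec (motive := fun _ => I → Bool) leP leN leX x y

/-- `x` lies in the interval `X` (whose unit is `2^-28`) -/
def mem (x : ℝ) (X : I) : Prop :=
  I.rec (motive := fun _ => Prop)
    (fun l h => (l : ℝ) ≤ x * 268435456 ∧ x * 268435456 ≤ (h : ℝ))
    (fun l h => -(h : ℝ) ≤ x * 268435456 ∧ x * 268435456 ≤ -(l : ℝ))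
    (fun l h => -(l : ℝ) ≤ x * 268435456 ∧ x * 268435456 ≤ (h : ℝ)) X

theorem mem_pos_iff (x : ℝ) (l h : Nat) :
    mem x (I.pos l h) ↔ (l : ℝ) ≤ x * 268435456 ∧ x * 268435456 ≤ (h : ℝ) := Iff.rfl
theorem mem_neg_iff (x : ℝ) (l h : Nat) :
    mem x (I.neg l h) ↔ -(h : ℝ) ≤ x * 268435456 ∧ x * 268435456 ≤ -(l : ℝ) := Iff.rfl
theorem mem_mix_iff (x : ℝ) (l h : Nat) :
    mem x (I.mix l h) ↔ -(l : ℝ) ≤ x * 268435456 ∧ x * 268435456 ≤ (h : ℝ) := Iff.rfl

/-! ### natural numbers -/

theorem cast_sub_ge (a b : Nat) : (a : ℝ) - b ≤ ((Nat.sub a b : Nat) : ℝ) := by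
  have h : a ≤ (a - b) + b := by omega
  have h' : (a : ℝ) ≤ ((a - b : Nat) : ℝ) + b := by exact_mod_cast h
  change (a : ℝ) - b ≤ ((a - b : Nat) : ℝ)
  linarith

theorem cast_sub_eq {a b : Nat} (h : Nat.ble b a = true) :
    ((Nat.sub a b : Nat) : ℝ) = (a : ℝ) - b := by
  have h1 : b ≤ a := Nat.le_of_ble_eq_true h
  change ((a - b : Nat) : ℝ) = _
  rw [Nat.cast_sub h1]

theorem cast_add' (a b : Nat) : ((Nat.add a b : Nat) : ℝ) = (a : ℝ) + b := by
  change ((a + b : Nat) : ℝ) = _
  push_cast; rfl

theorem cast_mul' (a b : Nat) : ((Nat.mul a b : Nat) : ℝ) = (a : ℝ) * b := by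
  change ((a * b : Nat) : ℝ) = _
  push_cast; rfl

theorem le_of_ble {a b : Nat} (h : Nat.ble a b = true) : (a : ℝ) ≤ b := by
  have := Nat.le_of_ble_eq_true h
  exact_mod_cast this

theorem le_mx_left (a b : Nat) : (a : ℝ) ≤ (mx a b : Nat) := by
  have : a ≤ a + (b - a) := by omega
  change (a : ℝ) ≤ ((a + (b - a) : Nat) : ℝ)
  exact_mod_cast this

theorem le_mx_right (a b : Nat) : (b : ℝ) ≤ (mx a b : Nat) := by
  have : b ≤ a + (b - a) := by omega
  change (b : ℝ) ≤ ((a + (b - a) : Nat) : ℝ)
  exact_mod_cast this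

/-- rounding down -/
theorem shr_le {n : Nat} {t : ℝ} (h : (n : ℝ) ≤ t) :
    ((Nat.shiftRight n 28 : Nat) : ℝ) ≤ t / 268435456 := by
  have h1 : Nat.shiftRight n 28 = n / 268435456 := by
    have := Nat.shiftRight_eq_div_pow n 28
    simpa using this
  rw [h1, le_div_iff₀ (by norm_num)]
  have h2 : n / 268435456 * 268435456 ≤ n := Nat.div_mul_le_self _ _
  have h3 : ((n / 268435456 : Nat) : ℝ) * 268435456 ≤ (n : ℝ) := by exact_mod_cast h2
  linarith

/-- rounding up -/
theorem le_shr {n : Nat} {t : ℝ} (h : t ≤ (n : ℝ)) :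
    t / 268435456 ≤ ((Nat.succ (Nat.shiftRight n 28) : Nat) : ℝ) := by
  have h1 : Nat.shiftRight n 28 = n / 268435456 := by
    have := Nat.shiftRight_eq_div_pow n 28
    simpa using this
  rw [h1, div_le_iff₀ (by norm_num)]
  have h2 : n ≤ Nat.succ (n / 268435456) * 268435456 := by omega
  have h3 : (n : ℝ) ≤ ((Nat.succ (n / 268435456) : Nat) : ℝ) * 268435456 := by exact_mod_cast h2
  linarith

/-! ### negation, doubling, sign -/

theorem mem_opp {x : ℝ} {X : I} (h : mem x X) : mem (-x) (I.opp X) := by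
  cases X with
  | pos l h' => 
    obtain ⟨h1, h2⟩ := h
    exact ⟨by linarith, by linarith⟩
  | neg l h' => 
    obtain ⟨h1, h2⟩ := h
    exact ⟨by linarith, by linarith⟩
  | mix l h' => 
    obtain ⟨h1, h2⟩ := h
    exact ⟨by linarith, by linarith⟩

theorem mem_dbl {x : ℝ} {X : I} (h : mem x X) : mem (2 * x) (I.dbl X) := by
  cases X with
  | pos l h' => 
    obtain ⟨h1, h2⟩ := h
    refine (mem_pos_iff _ _ _).2 ⟨?_, ?_⟩ <;> rw [cast_mul'] <;> push_cast <;> linarith
  | neg l h' => 
    obtain ⟨h1, h2⟩ := h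
    refine (mem_neg_iff _ _ _).2 ⟨?_, ?_⟩ <;> rw [cast_mul'] <;> push_cast <;> linarith
  | mix l h' => 
    obtain ⟨h1, h2⟩ := h
    refine (mem_mix_iff _ _ _).2 ⟨?_, ?_⟩ <;> rw [cast_mul'] <;> push_cast <;> linarith

/-- the real sign operation matching `I.sg` -/
def rsg (e : Bool) (x : ℝ) : ℝ := Bool.rec (motive := fun _ => ℝ) (-x) x e

theorem rsg_true (x : ℝ) : rsg true x = x := rfl
theorem rsg_false (x : ℝ) : rsg false x = -x := rfl

theorem mem_sg {x : ℝ} {X : I} (e : Bool) (h : mem x X) : mem (rsg e x) (I.sg e X) := by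
  cases e with
  | false => exact mem_opp h
  | true => exact h

/-! ### addition and subtraction -/

theorem mem_dif {x y : ℝ} {l h l' h' : Nat} (hx : mem x (I.pos l h)) (hy : mem y (I.pos l' h')) :
    mem (x - y) (I.dif l h l' h') := by
  obtain ⟨a1, a2⟩ := hx
  obtain ⟨b1, b2⟩ := hy
  unfold I.dif
  cases e : Nat.ble h' l with
  | true =>
    refine (mem_pos_iff _ _ _).2 ⟨?_, ?_⟩
    · rw [cast_sub_eq e]; linarith
    · have := cast_sub_ge h l'; linarith
  | false =>
    change mem (x - y) (I.dif0 l h l' h')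
    unfold I.dif0
    cases e' : Nat.ble h l' with
    | true =>
      refine (mem_neg_iff _ _ _).2 ⟨?_, ?_⟩
      · have := cast_sub_ge h' l; linarith
      · rw [cast_sub_eq e']; linarith
    | false =>
      refine (mem_mix_iff _ _ _).2 ⟨?_, ?_⟩
      · have := cast_sub_ge h' l; linarith
      · have := cast_sub_ge h l'; linarith

theorem mem_pmx {x y : ℝ} {l h l' h' : Nat} (hx : mem x (I.pos l h)) (hy : mem y (I.mix l' h')) :
    mem (x + y) (I.pmx l h l' h') := by
  obtain ⟨a1, a2⟩ := hx
  obtain ⟨b1, b2⟩ := hy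
  unfold I.pmx
  cases e : Nat.ble l' l with
  | true =>
    refine (mem_pos_iff _ _ _).2 ⟨?_, ?_⟩
    · rw [cast_sub_eq e]; linarith
    · rw [cast_add']; linarith
  | false =>
    refine (mem_mix_iff _ _ _).2 ⟨?_, ?_⟩
    · have := cast_sub_ge l' l; linarith
    · rw [cast_add']; linarith

theorem mem_nmx {x y : ℝ} {l h l' h' : Nat} (hx : mem x (I.neg l h)) (hy : mem y (I.mix l' h')) :
    mem (x + y) (I.nmx l h l' h') := by
  obtain ⟨a1, a2⟩ := hx
  obtain ⟨b1, b2⟩ := hy
  unfold I.nmx
  cases e : Nat.ble h' l with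
  | true =>
    refine (mem_neg_iff _ _ _).2 ⟨?_, ?_⟩
    · rw [cast_add']; linarith
    · rw [cast_sub_eq e]; linarith
  | false =>
    refine (mem_mix_iff _ _ _).2 ⟨?_, ?_⟩
    · rw [cast_add']; linarith
    · have := cast_sub_ge h' l; linarith

theorem mem_neg_of {x : ℝ} {l h : Nat} (hx : mem x (I.neg l h)) : mem (-x) (I.pos l h) :=
  mem_opp hx
theorem mem_pos_of {x : ℝ} {l h : Nat} (hx : mem x (I.pos l h)) : mem (-x) (I.neg l h) :=
  mem_opp hx
theorem mem_mix_of {x : ℝ} {l h : Nat} (hx : mem x (I.mix l h)) : mem (-x) (I.mix h l) :=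
  mem_opp hx

theorem mem_add {x y : ℝ} {X Y : I} (hx : mem x X) (hy : mem y Y) : mem (x + y) (I.add X Y) := by
  cases X with
  | pos l h =>
    cases Y with
    | pos l' h' =>
      obtain ⟨a1, a2⟩ := hx
      obtain ⟨b1, b2⟩ := hy
      change mem (x + y) (I.pos (Nat.add l' l) (Nat.add h' h))
      rw [mem_pos_iff, cast_add', cast_add']
      exact ⟨by linarith, by linarith⟩
    | neg l' h' =>
      have := mem_dif hx (mem_neg_of hy)
      rw [sub_neg_eq_add] at this
      exact this
    | mix l' h' => exact mem_pmx hx hy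
  | neg l h =>
    cases Y with
    | pos l' h' =>
      have := mem_dif hy (mem_neg_of hx)
      rw [sub_neg_eq_add, add_comm] at this
      exact this
    | neg l' h' =>
      obtain ⟨a1, a2⟩ := hx
      obtain ⟨b1, b2⟩ := hy
      change mem (x + y) (I.neg (Nat.add l' l) (Nat.add h' h))
      rw [mem_neg_iff, cast_add', cast_add']
      exact ⟨by linarith, by linarith⟩
    | mix l' h' => exact mem_nmx hx hy
  | mix l h =>
    cases Y with
    | pos l' h' =>
      have := mem_pmx hy hx
      rw [add_comm] at this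
      exact this
    | neg l' h' =>
      have := mem_nmx hy hx
      rw [add_comm] at this
      exact this
    | mix l' h' =>
      obtain ⟨a1, a2⟩ := hx
      obtain ⟨b1, b2⟩ := hy
      change mem (x + y) (I.mix (Nat.add l' l) (Nat.add h' h))
      rw [mem_mix_iff, cast_add', cast_add']
      exact ⟨by linarith, by linarith⟩

theorem mem_sub {x y : ℝ} {X Y : I} (hx : mem x X) (hy : mem y Y) : mem (x - y) (I.sub X Y) := by
  cases X with
  | pos l h =>
    cases Y with
    | pos l' h' => exact mem_dif hx hy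
    | neg l' h' =>
      obtain ⟨a1, a2⟩ := hx
      obtain ⟨b1, b2⟩ := hy
      change mem (x - y) (I.pos (Nat.add l' l) (Nat.add h' h))
      rw [mem_pos_iff, cast_add', cast_add']
      exact ⟨by linarith, by linarith⟩
    | mix l' h' => 
      have := mem_pmx hx (mem_mix_of hy)
      rw [← sub_eq_add_neg] at this
      exact this
  | neg l h =>
    cases Y with
    | pos l' h' =>
      obtain ⟨a1, a2⟩ := hx
      obtain ⟨b1, b2⟩ := hy
      change mem (x - y) (I.neg (Nat.add l' l) (Nat.add h' h))
      rw [mem_neg_iff, cast_add', cast_add']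
      exact ⟨by linarith, by linarith⟩
    | neg l' h' =>
      have := mem_dif (mem_neg_of hy) (mem_neg_of hx)
      have e : -y - -x = x - y := by ring
      rw [e] at this
      exact this
    | mix l' h' => 
      have := mem_nmx hx (mem_mix_of hy)
      rw [← sub_eq_add_neg] at this
      exact this
  | mix l h =>
    cases Y with
    | pos l' h' =>
      have := mem_nmx (mem_pos_of hy) hx
      rw [add_comm, ← sub_eq_add_neg] at this
      exact this
    | neg l' h' =>
      have := mem_pmx (mem_neg_of hy) hx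
      rw [add_comm, ← sub_eq_add_neg] at this
      exact this
    | mix l' h' =>
      obtain ⟨a1, a2⟩ := hx
      obtain ⟨b1, b2⟩ := hy
      change mem (x - y) (I.mix (Nat.add l h') (Nat.add h l'))
      rw [mem_mix_iff, cast_add', cast_add']
      exact ⟨by linarith, by linarith⟩

/-! ### multiplication -/

theorem prod_scale (x y : ℝ) :
    x * y * 268435456 = (x * 268435456) * (y * 268435456) / 268435456 := by
  field_simp

theorem mem_mpp {x y : ℝ} {l h l' h' : Nat} (hx : mem x (I.pos l h)) (hy : mem y (I.pos l' h')) :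
    mem (x * y) (I.mpp l h l' h') := by
  obtain ⟨a1, a2⟩ := hx
  obtain ⟨b1, b2⟩ := hy
  have l0 : (0 : ℝ) ≤ l := Nat.cast_nonneg l
  have l0' : (0 : ℝ) ≤ l' := Nat.cast_nonneg l'
  refine (mem_pos_iff _ _ _).2 ⟨?_, ?_⟩
  · rw [prod_scale]
    apply shr_le
    rw [cast_mul']
    exact mul_le_mul a1 b1 l0' (l0.trans a1)
  · rw [prod_scale]
    apply le_shr
    rw [cast_mul']
    exact mul_le_mul a2 b2 (l0'.trans b1) ((l0.trans a1).trans a2)

theorem mem_mpn {x y : ℝ} {l h l' h' : Nat} (hx : mem x (I.pos l h)) (hy : mem y (I.neg l' h')) :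
    mem (x * y) (I.mpn l h l' h') := by
  have := mem_opp (mem_mpp hx (mem_neg_of hy))
  have e : -(x * -y) = x * y := by ring
  rw [e] at this
  exact this

/-- bounds of a product of a nonnegative number and a number of any sign -/
theorem mix_bound {X Y l' h' h : ℝ} (h0 : 0 ≤ X) (h1 : X ≤ h) (l0 : 0 ≤ l') (r0 : 0 ≤ h')
    (h2 : -l' ≤ Y) (h3 : Y ≤ h') : -(h * l') ≤ X * Y ∧ X * Y ≤ h * h' := by
  constructor
  · nlinarith [mul_le_mul_of_nonneg_left h2 h0, mul_le_mul_of_nonneg_right h1 l0]
  · nlinarith [mul_le_mul_of_nonneg_left h3 h0, mul_le_mul_of_nonneg_right h1 r0]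

theorem neg_le_shr {n : Nat} {t : ℝ} (h : -(n : ℝ) ≤ t) :
    -((Nat.succ (Nat.shiftRight n 28) : Nat) : ℝ) ≤ t / 268435456 := by
  have h1 : -t ≤ (n : ℝ) := by linarith
  have h2 := le_shr h1
  have h3 : -t / 268435456 = -(t / 268435456) := by ring
  linarith

/-- `pos * mix` -/
theorem mem_pmul {x y : ℝ} {l h l' h' : Nat} (hx : mem x (I.pos l h)) (hy : mem y (I.mix l' h')) :
    mem (x * y) (I.mxp l' h' l h) := by
  obtain ⟨a1, a2⟩ := hx
  obtain ⟨b1, b2⟩ := hy
  have l0 : (0 : ℝ) ≤ l := Nat.cast_nonneg l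
  have l0' : (0 : ℝ) ≤ l' := Nat.cast_nonneg l'
  have h0' : (0 : ℝ) ≤ h' := Nat.cast_nonneg h'
  have hb := mix_bound (l0.trans a1) a2 l0' h0' b1 b2
  refine (mem_mix_iff _ _ _).2 ⟨?_, ?_⟩
  · rw [prod_scale]
    apply neg_le_shr
    rw [cast_mul']
    exact hb.1
  · rw [prod_scale]
    apply le_shr
    rw [cast_mul']
    exact hb.2

theorem mem_mxx {x y : ℝ} {l h l' h' : Nat} (hx : mem x (I.mix l h)) (hy : mem y (I.mix l' h')) :
    mem (x * y) (I.mxx l' h' l h) := by
  obtain ⟨a1, a2⟩ := hx
  obtain ⟨b1, b2⟩ := hy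
  have l0 : (0 : ℝ) ≤ l := Nat.cast_nonneg l
  have h0 : (0 : ℝ) ≤ h := Nat.cast_nonneg h
  have l0' : (0 : ℝ) ≤ l' := Nat.cast_nonneg l'
  have h0' : (0 : ℝ) ≤ h' := Nat.cast_nonneg h'
  have m1 := le_mx_left (Nat.mul l' h) (Nat.mul h' l)
  have m2 := le_mx_right (Nat.mul l' h) (Nat.mul h' l)
  have m3 := le_mx_left (Nat.mul l' l) (Nat.mul h' h)
  have m4 := le_mx_right (Nat.mul l' l) (Nat.mul h' h)
  rw [cast_mul'] at m1 m2 m3 m4
  have key : -((mx (Nat.mul l' h) (Nat.mul h' l) : Nat) : ℝ)
      ≤ (x * 268435456) * (y * 268435456) ∧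
      (x * 268435456) * (y * 268435456) ≤ ((mx (Nat.mul l' l) (Nat.mul h' h) : Nat) : ℝ) := by
    rcases le_total 0 (x * 268435456) with hs | hs
    · have hb := mix_bound hs a2 l0' h0' b1 b2
      constructor
      · linarith [hb.1]
      · linarith [hb.2]
    · have hb := mix_bound (X := -(x * 268435456)) (by linarith) (by linarith : _ ≤ (l : ℝ))
        l0' h0' b1 b2
      constructor
      · linarith [hb.2]
      · linarith [hb.1]
  refine (mem_mix_iff _ _ _).2 ⟨?_, ?_⟩
  · rw [prod_scale]
    exact neg_le_shr key.1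
  · rw [prod_scale]
    exact le_shr key.2

theorem mem_mul {x y : ℝ} {X Y : I} (hx : mem x X) (hy : mem y Y) : mem (x * y) (I.mul X Y) := by
  cases X with
  | pos l h =>
    cases Y with
    | pos l' h' => 
      have := mem_mpp hy hx
      rw [mul_comm] at this
      exact this
    | neg l' h' =>
      have := mem_opp (mem_mpp (mem_neg_of hy) hx)
      have e : -(-y * x) = x * y := by ring
      rw [e] at this
      exact this
    | mix l' h' => exact mem_pmul hx hy
  | neg l h =>
    cases Y with
    | pos l' h' =>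
      have := mem_opp (mem_mpp hy (mem_neg_of hx))
      have e : -(y * -x) = x * y := by ring
      rw [e] at this
      exact this
    | neg l' h' =>
      have := mem_mpp (mem_neg_of hy) (mem_neg_of hx)
      have e : -y * -x = x * y := by ring
      rw [e] at this
      exact this
    | mix l' h' => 
      have := mem_opp (mem_pmul (mem_neg_of hx) hy)
      have e : -(-x * y) = x * y := by ring
      rw [e] at this
      exact this
  | mix l h =>
    cases Y with
    | pos l' h' =>
      have := mem_pmul hy hx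
      rw [mul_comm] at this
      exact this
    | neg l' h' =>
      have := mem_opp (mem_pmul (mem_neg_of hy) hx)
      have e : -(-y * x) = x * y := by ring
      rw [e] at this
      exact this
    | mix l' h' => exact mem_mxx hx hy

theorem mem_sqr {x : ℝ} {X : I} (hx : mem x X) : mem (x * x) (I.sqr X) := by
  cases X with
  | pos l h => exact mem_mpp hx hx
  | neg l h => 
    have := mem_mpp (mem_neg_of hx) (mem_neg_of hx)
    rw [neg_mul_neg] at this
    exact this
  | mix l h =>
    obtain ⟨a1, a2⟩ := hx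
    change mem (x * x) (I.sqrX1 (mx l h))
    have m1 := le_mx_left l h
    have m2 := le_mx_right l h
    refine (mem_pos_iff _ _ _).2 ⟨?_, ?_⟩
    · have : (0 : ℝ) ≤ x * x * 268435456 := by nlinarith [mul_self_nonneg x]
      simpa using this
    · rw [prod_scale]
      apply le_shr
      rw [cast_mul']
      nlinarith

theorem mem_inv {x : ℝ} {X : I} (hx : mem x X) (hX : isPos X = true) :
    mem (1 / x) (I.inv X) ∧ 0 < x := by
  cases X with
  | pos l h =>
    obtain ⟨a1, a2⟩ := hx
    have h1 : Nat.ble 1 l = true := hX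
    have l1 : (1 : ℝ) ≤ l := by exact_mod_cast Nat.le_of_ble_eq_true h1
    have lpos : 0 < l := by exact_mod_cast (by linarith : (0 : ℝ) < l)
    have x0 : 0 < x := by nlinarith
    have hpos : 0 < h := by exact_mod_cast (by linarith : (0 : ℝ) < h)
    refine ⟨(mem_pos_iff _ _ _).2 ⟨?_, ?_⟩, x0⟩
    · change ((72057594037927936 / h : Nat) : ℝ) ≤ _
      have h2 : 72057594037927936 / h * h ≤ 72057594037927936 := Nat.div_mul_le_self _ _
      have h3 : ((72057594037927936 / h : Nat) : ℝ) * (h : ℝ) ≤ 72057594037927936 := by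
        exact_mod_cast h2
      have h4 : (0 : ℝ) ≤ ((72057594037927936 / h : Nat) : ℝ) := Nat.cast_nonneg _
      rw [div_mul_eq_mul_div, le_div_iff₀ x0]
      nlinarith
    · change _ ≤ ((Nat.succ (72057594037927936 / l) : Nat) : ℝ)
      have h2 : 72057594037927936 < Nat.succ (72057594037927936 / l) * l := by
        have h5 := Nat.lt_mul_div_succ 72057594037927936 lpos
        rw [Nat.mul_comm] at h5
        exact h5
      have h3 : (72057594037927936 : ℝ) ≤ ((Nat.succ (72057594037927936 / l) : Nat) : ℝ) * l := by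
        exact_mod_cast h2.le
      rw [div_mul_eq_mul_div, div_le_iff₀ x0]
      nlinarith
  | neg l h => exact absurd hX (by change ¬ (false = true); simp)
  | mix l h => exact absurd hX (by change ¬ (false = true); simp)

/-! ### comparison -/

theorem mem_of_le {x : ℝ} {X Y : I} (hx : mem x X) (h : le X Y = true) : mem x Y := by
  cases X with
  | pos l u =>
    cases Y with
    | pos l' u' =>
      obtain ⟨a1, a2⟩ := hx
      change le2S l' u' l u = true at h
      unfold le2S at h
      cases e : Nat.ble l' l with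
      | false => rw [e] at h; exact absurd h (by simp)
      | true =>
        rw [e] at h
        have h1 := le_of_ble e
        have h2 := le_of_ble (show Nat.ble u u' = true from h)
        exact (mem_pos_iff _ _ _).2 ⟨by linarith, by linarith⟩
    | neg l' u' => exact absurd (show false = true from h) (by simp)
    | mix l' u' =>
      obtain ⟨a1, a2⟩ := hx
      have h2 := le_of_ble (show Nat.ble u u' = true from h)
      have l0 : (0 : ℝ) ≤ l := Nat.cast_nonneg l
      have l0' : (0 : ℝ) ≤ l' := Nat.cast_nonneg l'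
      exact (mem_mix_iff _ _ _).2 ⟨by linarith, by linarith⟩
  | neg l u =>
    cases Y with
    | pos l' u' => exact absurd (show false = true from h) (by simp)
    | neg l' u' =>
      obtain ⟨a1, a2⟩ := hx
      change le2S l' u' l u = true at h
      unfold le2S at h
      cases e : Nat.ble l' l with
      | false => rw [e] at h; exact absurd h (by simp)
      | true =>
        rw [e] at h
        have h1 := le_of_ble e
        have h2 := le_of_ble (show Nat.ble u u' = true from h)
        exact (mem_neg_iff _ _ _).2 ⟨by linarith, by linarith⟩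
    | mix l' u' =>
      obtain ⟨a1, a2⟩ := hx
      have h2 := le_of_ble (show Nat.ble u l' = true from h)
      have l0 : (0 : ℝ) ≤ l := Nat.cast_nonneg l
      have l0' : (0 : ℝ) ≤ u' := Nat.cast_nonneg u'
      exact (mem_mix_iff _ _ _).2 ⟨by linarith, by linarith⟩
  | mix l u =>
    cases Y with
    | pos l' u' => exact absurd (show false = true from h) (by simp)
    | neg l' u' => exact absurd (show false = true from h) (by simp)
    | mix l' u' =>
      obtain ⟨a1, a2⟩ := hx
      change leXX l' u' l u = true at h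
      unfold leXX at h
      cases e : Nat.ble l l' with
      | false => rw [e] at h; exact absurd h (by simp)
      | true =>
        rw [e] at h
        have h1 := le_of_ble e
        have h2 := le_of_ble (show Nat.ble u u' = true from h)
        exact (mem_mix_iff _ _ _).2 ⟨by linarith, by linarith⟩

theorem neg_of_isNeg {x : ℝ} {X : I} (hx : mem x X) (h : isNeg X = true) : x < 0 := by
  cases X with
  | pos l u => exact absurd (show false = true from h) (by simp)
  | mix l u => exact absurd (show false = true from h) (by simp)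
  | neg l u =>
    obtain ⟨a1, a2⟩ := hx
    have h1 : Nat.ble 1 l = true := h
    have l1 : (1 : ℝ) ≤ l := by exact_mod_cast Nat.le_of_ble_eq_true h1
    nlinarith

theorem pos_of_isPos {x : ℝ} {X : I} (hx : mem x X) (h : isPos X = true) : 0 < x := by
  cases X with
  | neg l u => exact absurd (show false = true from h) (by simp)
  | mix l u => exact absurd (show false = true from h) (by simp)
  | pos l u =>
    obtain ⟨a1, a2⟩ := hx
    have h1 : Nat.ble 1 l = true := h
    have l1 : (1 : ℝ) ≤ l := by exact_mod_cast Nat.le_of_ble_eq_true h1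
    nlinarith

/-- the number one as an interval -/
def one : I := I.pos (nat_lit 268435456) (nat_lit 268435456)
/-- the number zero as an interval -/
def zero : I := I.pos (nat_lit 0) (nat_lit 0)

theorem mem_one : mem 1 one := (mem_pos_iff _ _ _).2 ⟨by norm_num, by norm_num⟩
theorem mem_zero : mem 0 zero := (mem_pos_iff _ _ _).2 ⟨by norm_num, by norm_num⟩

end Pool.Agent.Helper6.MONO
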