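import Pool.Agent.Helper32.MONO.Ivl

/-!
The interval program for one block step and the same program over the real numbers.
-/

set_option autoImplicit false
noncomputable section
namespace Pool.Agent.Helper6.MONO

open I

/-! ### the interval program -/

structure C2 where
  r : I
  i : I

namespace C2
def mul (s : I) (x y : C2) : C2 :=
  C2.mk (I.sub (I.mul x.r y.r) (I.mul s (I.mul x.i y.i))) (I.add (I.mul x.r y.i) (I.mul x.i y.r))
def sc (k : I) (x : C2) : C2 := C2.mk (I.mul k x.r) (I.mul k x.i)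
def add (x y : C2) : C2 := C2.mk (I.add x.r y.r) (I.add x.i y.i)
def inv1 (s ir : I) (x : C2) : I := I.inv (I.add x.r (I.mul s (I.mul (I.sqr x.i) ir)))
def inv2 (ir qr : I) (x : C2) : C2 := C2.mk qr (I.opp (I.mul (I.mul x.i ir) qr))
def inv (s : I) (x : C2) : C2 := (fun ir => (fun qr => inv2 ir qr x) (inv1 s ir x)) (I.inv x.r)
end C2

structure Pr where
  g : I
  b0 : I
  Sb : I
  td : I
  cr : I
  Cr : I
  Ci : I

structure St where
  a : I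
  b : I
  be : I
  yr : I
  ad : I
  bd : I
  bed : I

/-- result: new state and L -/
structure Res where
  st : St
  L : I

def badRes : Res := Res.mk (St.mk zero zero zero zero zero zero zero) one
def chkP (l _h : Nat) (r : Res) : Res :=
  Bool.rec (motive := fun _ => Res) badRes r (Nat.ble (nat_lit 1) l)
def chkB (_l _h : Nat) (_r : Res) : Res := badRes
/-- `r` if `x` is positive, away from `0`, and a failing result otherwise -/
def chk (x : I) (r : Res) : Res := I.rec (motive := fun _ => Res → Res) chkP chkB chkB x r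

def mulca (s : I) (eps : Bool) (x : C2) : C2 :=
  C2.mk (I.sub (sg eps x.r) (I.mul s x.i)) (I.add x.r (sg eps x.i))
def mulcb (s : I) (eps : Bool) (x : C2) : C2 :=
  C2.mk (I.sub (opp (sg eps (I.mul s x.r))) (I.mul s x.i)) (I.sub x.r (sg eps (I.mul s x.i)))

def final (cj : Bool) (w yQ Za Zb Zg Zc : C2) (Ba Bb Bg Bc La Lb Lg Lc : I) (z : St) : Res :=
  Res.mk (St.mk w.r (sg cj w.i) (sg cj yQ.i) yQ.r
    (I.add (I.add (I.mul Za.r z.ad) (I.mul Zb.r z.bd)) (I.add (I.mul Zg.r z.bed) Zc.r))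
    (sg cj (I.add (I.add (I.mul Za.i z.ad) (I.mul Zb.i z.bd)) (I.add (I.mul Zg.i z.bed) Zc.i)))
    (sg cj (I.add (I.add (I.mul Ba z.ad) (I.mul Bb z.bd)) (I.add (I.mul Bg z.bed) Bc))))
    (I.add (I.add (I.mul La z.ad) (I.mul Lb z.bd)) (I.add (I.mul Lg z.bed) Lc))

def imm (yQ q : C2) : I := opp (I.add (I.mul yQ.r q.i) (I.mul yQ.i q.r))

def ph5 (s1 : I) (cj : Bool) (z : St) (w yQ Za Zb Zg Zc qa qb qg qc : C2) (QiDi : I) : Res :=
  final cj w yQ Za Zb Zg Zc (imm yQ qa) (imm yQ qb) (imm yQ qg)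
    (I.sub (imm yQ qc) (I.mul s1 (I.mul QiDi yQ.i)))
    (dbl qa.r) (dbl qb.r) (dbl qg.r) (I.sub (I.add (dbl qc.r) (I.mul s1 QiDi)) one) z

def cg (s e1 Yg : I) (V : C2) : C2 :=
  C2.mk (I.sub (I.mul Yg V.r) (I.mul s (I.mul e1 V.i))) (I.add (I.mul Yg V.i) (I.mul e1 V.r))
def cc (s c0 Ycr Yci : I) (U V : C2) : C2 :=
  C2.mk (I.add (I.mul U.r c0) (I.sub (I.mul V.r Ycr) (I.mul s (I.mul V.i Yci))))
    (I.add (I.mul U.i c0) (I.add (I.mul V.r Yci) (I.mul V.i Ycr)))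

def ph4 (s s1 : I) (eps cj : Bool) (z : St) (w yQ D Q UQ VQ qU qV : C2)
    (Ya Yb Yg Ycr Yci c0 e1 : I) : Res :=
  ph5 s1 cj z w yQ
    (C2.add (mulca s eps UQ) (C2.sc Ya VQ)) (C2.add (mulcb s eps UQ) (C2.sc Yb VQ))
    (cg s e1 Yg VQ) (C2.add (cc s c0 Ycr Yci UQ VQ) (C2.sc (I.mul s1 (I.mul w.i D.i)) Q))
    (C2.add (mulca s eps qU) (C2.sc Ya qV)) (C2.add (mulcb s eps qU) (C2.sc Yb qV))
    (cg s e1 Yg qV) (cc s c0 Ycr Yci qU qV) (opp (I.mul Q.i D.i))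

def ph3 (s s1 : I) (eps cj : Bool) (z : St) (p : Pr) (R2 Sg SR yr Yi ya2 be2 b2 : I)
    (w yQ D Q : C2) (dl ep : I) (iv : I) : Res :=
  ph4 s s1 eps cj z w yQ D Q
    (C2.mul s (C2.mk (I.sub (I.mul (I.sub R2 p.Sb) p.g) (I.mul dl w.r)) (opp (I.mul dl w.i))) Q)
    (C2.mul s (C2.mk (I.sub (opp SR) (I.mul ep w.r)) (opp (I.mul ep w.i))) Q)
    (C2.sc dl Q) (C2.sc ep Q)
    (I.mul s1 (I.mul (dbl z.a) iv)) (I.mul s1 (I.mul (dbl (I.mul s z.b)) iv))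
    (I.mul s1 (I.mul s (I.mul (I.sub (dbl (I.mul Sg (I.mul s1 z.be))) p.b0) iv)))
    (I.mul s1 (I.add yr (I.mul s1 (I.mul (I.sub (I.add b2 (I.mul Sg (I.add ya2 (I.mul s1 be2))))
      (I.mul p.b0 z.be)) iv))))
    Yi (opp (sg eps (I.mul s1 z.b))) (sg eps s1)

def ph2d (s s1 : I) (eps cj : Bool) (z : St) (p : Pr) (R2 Sg SR yr Yi ya2 be2 b2 : I)
    (n1 G D Q : C2) (yf dl ep v : I) : Res :=
  chk G.r (chk v (ph3 s s1 eps cj z p R2 Sg SR yr Yi ya2 be2 b2 (C2.mul s n1 (C2.inv s G))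
    (C2.sc yf Q) D Q dl ep (I.inv v)))

def ph2b (s s1 : I) (eps cj : Bool) (z : St) (p : Pr) (R2 Sg SR yr Yr Yi ya2 be2 b2 : I)
    (n1 G D : C2) (yf dl ep : I) : Res :=
  chk D.r (ph2d s s1 eps cj z p R2 Sg SR yr Yi ya2 be2 b2 n1 G D (C2.inv s D) yf dl ep
    (I.sub one (dbl (I.mul Sg Yr))))

def ph2a (s s1 : I) (eps cj : Bool) (z : St) (p : Pr) (R2 Sg SR yr Yr Yi ya2 be2 b2 Xr Xi Cr Ci : I)
    (n1 G : C2) (yf dl ep : I) : Res :=
  ph2b s s1 eps cj z p R2 Sg SR yr Yr Yi ya2 be2 b2 n1 G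
    (C2.mk (I.add one (I.add (I.mul dl Xr) (I.add (I.mul ep Yr) Cr)))
      (I.add (I.mul dl Xi) (I.add (I.mul ep Yi) Ci))) yf dl ep

def ph2 (s s1 : I) (eps cj : Bool) (z : St) (p : Pr)
    (R R2 rh rh2 Sg SR yr Yr Yi ya2 be2 b2 Xr Xi Cr Ci : I) (iM M eta e1 : C2) (yf : I) : Res :=
  ph2a s s1 eps cj z p R2 Sg SR yr Yr Yi ya2 be2 b2 Xr Xi Cr Ci
    (C2.add (C2.mul s e1 iM) (C2.mk R zero)) (C2.add M (C2.mul s eta iM)) yf
    (dbl rh) (I.sub rh2 Sg)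

def ph1b (s s1 : I) (eps cj even : Bool) (z : St) (p : Pr) (R R2 rh rh2 Sg SR : I)
    (b2 be2 ya2 zet yr Xr Xi be Cr Ci : I) (M : C2) (Yr Yi : I) : Res :=
  chk M.r (ph2 s s1 eps cj z p R R2 rh rh2 Sg SR yr Yr Yi ya2 be2 b2 Xr Xi Cr Ci (C2.inv s M) M
    (C2.mk
      (I.add (I.sub (I.mul rh2 (I.add (dbl (I.mul s (I.sqr Xi))) (I.mul s1 zet))) (I.mul Sg Yr)) Cr)
      (I.add (I.sub (I.mul rh2 (I.sub (I.mul s1 be) (dbl (I.mul Xr Xi)))) (I.mul Sg Yi)) Ci))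
    (C2.mk (opp (I.add (I.mul (I.mul p.Sb p.g) Xr) (I.mul SR Yr)))
      (I.sub (I.mul R (sg eps p.b0)) (I.add (I.mul (I.mul p.Sb p.g) Xi) (I.mul SR Yi))))
    (Bool.rec (motive := fun _ => I) (I.mul p.cr (I.add R2 p.Sb)) (I.add R2 p.Sb) even))

def ph1 (s s1 : I) (eps cj even : Bool) (z : St) (p : Pr) (R R2 rh rh2 Sg SR : I)
    (b2 be2 ya2 zet yr Xr Xi be Cr Ci : I) : Res :=
  ph1b s s1 eps cj even z p R R2 rh rh2 Sg SR b2 be2 ya2 zet yr Xr Xi be Cr Ci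
    (C2.mk (I.add one (I.mul rh Xr)) (I.mul rh Xi)) (I.mul s1 yr) (I.mul s1 be)

def ph0b (s s1 : I) (eps even : Bool) (z : St) (p : Pr) (R R2 rh Sg b2 sb2 be2 ya2 zet : I) : Res :=
  ph1 s s1 eps
    (Bool.rec (motive := fun _ => Bool) (Bool.rec (motive := fun _ => Bool) true false eps) eps even)
    even z p R R2 rh (sqr rh) Sg (dbl (I.mul Sg R)) b2 be2 ya2 zet
    (I.add (I.add (sqr z.a) sb2) zet)
    (sg eps (I.sub z.a (I.mul s z.b))) (I.add z.a z.b) (sg eps z.be)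
    (Bool.rec (motive := fun _ => I) p.Cr zero even)
    (sg eps (Bool.rec (motive := fun _ => I) p.Ci p.b0 even))

def ph0a (s s1 : I) (eps even : Bool) (z : St) (p : Pr) (R Sg b2 be2 ya2 : I) : Res :=
  ph0b s s1 eps even z p R (sqr R) (I.mul R p.g) Sg b2 (I.mul s b2) be2 ya2
    (I.sub (I.add p.td (I.mul s1 (I.mul Sg ya2))) (I.mul s (I.mul p.b0 z.be)))

def ph0 (s s1 : I) (eps even : Bool) (z : St) (p : Pr) (R Sg b2 be2 : I) : Res :=
  ph0a s s1 eps even z p R Sg b2 be2 (I.add (sqr z.yr) (I.mul s be2))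

def step (s : I) (eps even : Bool) (z : St) (p : Pr) (R : I) : Res :=
  ph0 s (I.add one s) eps even z p R (I.mul p.Sb (sqr p.g)) (sqr z.b) (sqr z.be)

def band (x y : Bool) : Bool := Bool.rec (motive := fun _ => Bool) false y x

def okR (r : Res) (t : St) : Bool :=
  band (isNeg r.L) (band (le r.st.a t.a) (band (le r.st.b t.b) (band (le r.st.be t.be)
    (band (le r.st.yr t.yr) (band (le r.st.ad t.ad) (band (le r.st.bd t.bd)
    (le r.st.bed t.bed)))))))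

end Pool.Agent.Helper6.MONO
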