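import Pool.Agent.Helper32.MONO.Prog

/-!
The program of `Prog.lean` over the real numbers (same phases, no checks).
-/

set_option autoImplicit false
noncomputable section
namespace Pool.Agent.Helper6.MONO

structure RC where
  r : ℝ
  i : ℝ

namespace RC

def mul (s : ℝ) (x y : RC) : RC :=
  (RC.mk ((x.r * y.r) - (s * (x.i * y.i))) ((x.r * y.i) + (x.i * y.r)))

def sc (k : ℝ) (x : RC) : RC :=
  (RC.mk (k * x.r) (k * x.i))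

def add (x y : RC) : RC :=
  (RC.mk (x.r + y.r) (x.i + y.i))

def inv1 (s ir : ℝ) (x : RC) : ℝ :=
  (1 / (x.r + (s * ((x.i * x.i) * ir))))

def inv2 (ir qr : ℝ) (x : RC) : RC :=
  (RC.mk qr (-((x.i * ir) * qr)))

def inv (s : ℝ) (x : RC) : RC :=
  ((fun ir => ((fun qr => (inv2 ir qr x)) (inv1 s ir x))) (1 / x.r))

end RC

structure RPr where
  g : ℝ
  b0 : ℝ
  Sb : ℝ
  td : ℝ
  cr : ℝ
  Cr : ℝ
  Ci : ℝ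

structure RSt where
  a : ℝ
  b : ℝ
  be : ℝ
  yr : ℝ
  ad : ℝ
  bd : ℝ
  bed : ℝ

structure RRes where
  st : RSt
  L : ℝ

def r_mulca (s : ℝ) (eps : Bool) (x : RC) : RC :=
  (RC.mk ((rsg eps x.r) - (s * x.i)) (x.r + (rsg eps x.i)))

def r_mulcb (s : ℝ) (eps : Bool) (x : RC) : RC :=
  (RC.mk ((-(rsg eps (s * x.r))) - (s * x.i)) (x.r - (rsg eps (s * x.i))))

def r_final (cj : Bool) (w yQ Za Zb Zg Zc : RC) (Ba Bb Bg Bc La Lb Lg Lc : ℝ) (z : RSt) : RRes :=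
  (RRes.mk (RSt.mk w.r (rsg cj w.i) (rsg cj yQ.i) yQ.r (((Za.r * z.ad) + (Zb.r * z.bd)) + ((Zg.r
    * z.bed) + Zc.r)) (rsg cj (((Za.i * z.ad) + (Zb.i * z.bd)) + ((Zg.i * z.bed) + Zc.i))) (rsg
    cj (((Ba * z.ad) + (Bb * z.bd)) + ((Bg * z.bed) + Bc)))) (((La * z.ad) + (Lb * z.bd)) + ((Lg
    * z.bed) + Lc)))

def r_imm (yQ q : RC) : ℝ :=
  (-((yQ.r * q.i) + (yQ.i * q.r)))

def r_ph5 (s1 : ℝ) (cj : Bool) (z : RSt) (w yQ Za Zb Zg Zc qa qb qg qc : RC) (QiDi : ℝ) : RRes :=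
  (r_final cj w yQ Za Zb Zg Zc (r_imm yQ qa) (r_imm yQ qb) (r_imm yQ qg) ((r_imm yQ qc) - (s1 *
    (QiDi * yQ.i))) (2 * qa.r) (2 * qb.r) (2 * qg.r) (((2 * qc.r) + (s1 * QiDi)) - 1) z)

def r_cg (s e1 Yg : ℝ) (V : RC) : RC :=
  (RC.mk ((Yg * V.r) - (s * (e1 * V.i))) ((Yg * V.i) + (e1 * V.r)))

def r_cc (s c0 Ycr Yci : ℝ) (U V : RC) : RC :=
  (RC.mk ((U.r * c0) + ((V.r * Ycr) - (s * (V.i * Yci)))) ((U.i * c0) + ((V.r * Yci) + (V.i *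
    Ycr))))

def r_ph4 (s s1 : ℝ) (eps cj : Bool) (z : RSt) (w yQ D Q UQ VQ qU qV : RC)
    (Ya Yb Yg Ycr Yci c0 e1 : ℝ) : RRes :=
  (r_ph5 s1 cj z w yQ (RC.add (r_mulca s eps UQ) (RC.sc Ya VQ)) (RC.add (r_mulcb s eps UQ)
    (RC.sc Yb VQ)) (r_cg s e1 Yg VQ) (RC.add (r_cc s c0 Ycr Yci UQ VQ) (RC.sc (s1 * (w.i * D.i))
    Q)) (RC.add (r_mulca s eps qU) (RC.sc Ya qV)) (RC.add (r_mulcb s eps qU) (RC.sc Yb qV))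
    (r_cg s e1 Yg qV) (r_cc s c0 Ycr Yci qU qV) (-(Q.i * D.i)))

def r_ph3 (s s1 : ℝ) (eps cj : Bool) (z : RSt) (p : RPr) (R2 Sg SR yr Yi ya2 be2 b2 : ℝ)
    (w yQ D Q : RC) (dl ep : ℝ) (iv : ℝ) : RRes :=
  (r_ph4 s s1 eps cj z w yQ D Q (RC.mul s (RC.mk (((R2 - p.Sb) * p.g) - (dl * w.r)) (-(dl *
    w.i))) Q) (RC.mul s (RC.mk ((-SR) - (ep * w.r)) (-(ep * w.i))) Q) (RC.sc dl Q) (RC.sc ep Q)
    (s1 * ((2 * z.a) * iv)) (s1 * ((2 * (s * z.b)) * iv)) (s1 * (s * (((2 * (Sg * (s1 * z.be)))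
    - p.b0) * iv))) (s1 * (yr + (s1 * (((b2 + (Sg * (ya2 + (s1 * be2)))) - (p.b0 * z.be)) *
    iv)))) Yi (-(rsg eps (s1 * z.b))) (rsg eps s1))

def r_ph2d (s s1 : ℝ) (eps cj : Bool) (z : RSt) (p : RPr) (R2 Sg SR yr Yi ya2 be2 b2 : ℝ)
    (n1 G D Q : RC) (yf dl ep v : ℝ) : RRes :=
  (r_ph3 s s1 eps cj z p R2 Sg SR yr Yi ya2 be2 b2 (RC.mul s n1 (RC.inv s G)) (RC.sc yf Q) D Q
    dl ep (1 / v))

def r_ph2b (s s1 : ℝ) (eps cj : Bool) (z : RSt) (p : RPr) (R2 Sg SR yr Yr Yi ya2 be2 b2 : ℝ)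
    (n1 G D : RC) (yf dl ep : ℝ) : RRes :=
  (r_ph2d s s1 eps cj z p R2 Sg SR yr Yi ya2 be2 b2 n1 G D (RC.inv s D) yf dl ep (1 - (2 * (Sg *
    Yr))))

def r_ph2a (s s1 : ℝ) (eps cj : Bool) (z : RSt) (p : RPr) (R2 Sg SR yr Yr Yi ya2 be2 b2 Xr Xi Cr Ci : ℝ)
    (n1 G : RC) (yf dl ep : ℝ) : RRes :=
  (r_ph2b s s1 eps cj z p R2 Sg SR yr Yr Yi ya2 be2 b2 n1 G (RC.mk (1 + ((dl * Xr) + ((ep * Yr)
    + Cr))) ((dl * Xi) + ((ep * Yi) + Ci))) yf dl ep)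

def r_ph2 (s s1 : ℝ) (eps cj : Bool) (z : RSt) (p : RPr)
    (R R2 rh rh2 Sg SR yr Yr Yi ya2 be2 b2 Xr Xi Cr Ci : ℝ) (iM M eta e1 : RC) (yf : ℝ) : RRes :=
  (r_ph2a s s1 eps cj z p R2 Sg SR yr Yr Yi ya2 be2 b2 Xr Xi Cr Ci (RC.add (RC.mul s e1 iM)
    (RC.mk R 0)) (RC.add M (RC.mul s eta iM)) yf (2 * rh) (rh2 - Sg))

def r_ph1b (s s1 : ℝ) (eps cj even : Bool) (z : RSt) (p : RPr) (R R2 rh rh2 Sg SR : ℝ)
    (b2 be2 ya2 zet yr Xr Xi be Cr Ci : ℝ) (M : RC) (Yr Yi : ℝ) : RRes :=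
  (r_ph2 s s1 eps cj z p R R2 rh rh2 Sg SR yr Yr Yi ya2 be2 b2 Xr Xi Cr Ci (RC.inv s M) M (RC.mk
    (((rh2 * ((2 * (s * (Xi * Xi))) + (s1 * zet))) - (Sg * Yr)) + Cr) (((rh2 * ((s1 * be) - (2 *
    (Xr * Xi)))) - (Sg * Yi)) + Ci)) (RC.mk (-(((p.Sb * p.g) * Xr) + (SR * Yr))) ((R * (rsg eps
    p.b0)) - (((p.Sb * p.g) * Xi) + (SR * Yi)))) (Bool.rec (motive := fun _ => ℝ) (p.cr * (R2 +
    p.Sb)) (R2 + p.Sb) even))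

def r_ph1 (s s1 : ℝ) (eps cj even : Bool) (z : RSt) (p : RPr) (R R2 rh rh2 Sg SR : ℝ)
    (b2 be2 ya2 zet yr Xr Xi be Cr Ci : ℝ) : RRes :=
  (r_ph1b s s1 eps cj even z p R R2 rh rh2 Sg SR b2 be2 ya2 zet yr Xr Xi be Cr Ci (RC.mk (1 +
    (rh * Xr)) (rh * Xi)) (s1 * yr) (s1 * be))

def r_ph0b (s s1 : ℝ) (eps even : Bool) (z : RSt) (p : RPr) (R R2 rh Sg b2 sb2 be2 ya2 zet : ℝ) : RRes :=
  (r_ph1 s s1 eps (Bool.rec (motive := fun _ => Bool) (Bool.rec (motive := fun _ => Bool) true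
    false eps) eps even) even z p R R2 rh (rh * rh) Sg (2 * (Sg * R)) b2 be2 ya2 zet (((z.a *
    z.a) + sb2) + zet) (rsg eps (z.a - (s * z.b))) (z.a + z.b) (rsg eps z.be) (Bool.rec (motive
    := fun _ => ℝ) p.Cr 0 even) (rsg eps (Bool.rec (motive := fun _ => ℝ) p.Ci p.b0 even)))

def r_ph0a (s s1 : ℝ) (eps even : Bool) (z : RSt) (p : RPr) (R Sg b2 be2 ya2 : ℝ) : RRes :=
  (r_ph0b s s1 eps even z p R (R * R) (R * p.g) Sg b2 (s * b2) be2 ya2 ((p.td + (s1 * (Sg *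
    ya2))) - (s * (p.b0 * z.be))))

def r_ph0 (s s1 : ℝ) (eps even : Bool) (z : RSt) (p : RPr) (R Sg b2 be2 : ℝ) : RRes :=
  (r_ph0a s s1 eps even z p R Sg b2 be2 ((z.yr * z.yr) + (s * be2)))

def r_step (s : ℝ) (eps even : Bool) (z : RSt) (p : RPr) (R : ℝ) : RRes :=
  (r_ph0 s (1 + s) eps even z p R (p.Sb * (p.g * p.g)) (z.b * z.b) (z.be * z.be))

end Pool.Agent.Helper6.MONO
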