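import Pool.Agent.Helper32.MONO.Real

/-!
Soundness of the interval program: real numbers in the input intervals give real results which
pass every test passed by the interval results.
-/

set_option autoImplicit false
noncomputable section
namespace Pool.Agent.Helper6.MONO

open I

structure memC (x : RC) (X : C2) : Prop where
  r : mem x.r X.r
  i : mem x.i X.i

structure memPr (x : RPr) (X : Pr) : Prop where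
  g : mem x.g X.g
  b0 : mem x.b0 X.b0
  Sb : mem x.Sb X.Sb
  td : mem x.td X.td
  cr : mem x.cr X.cr
  Cr : mem x.Cr X.Cr
  Ci : mem x.Ci X.Ci

structure memSt (x : RSt) (X : St) : Prop where
  a : mem x.a X.a
  b : mem x.b X.b
  be : mem x.be X.be
  yr : mem x.yr X.yr
  ad : mem x.ad X.ad
  bd : mem x.bd X.bd
  bed : mem x.bed X.bed

/-- every test passed by the interval result `X` holds for the real result `x` -/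
def Good (x : RRes) (X : Res) : Prop := ∀ t : St, okR X t = true → memSt x.st t ∧ x.L < 0

theorem band_eq {x y : Bool} (h : band x y = true) : x = true ∧ y = true := by
  cases x with
  | false => exact absurd h (by change ¬ (false = true); simp)
  | true => exact ⟨rfl, h⟩

theorem good_mk {x : RSt} {X : St} {l : ℝ} {L : I} (h : memSt x X) (hl : mem l L) :
    Good (RRes.mk x l) (Res.mk X L) := by
  intro t ht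
  obtain ⟨h1, ht⟩ := band_eq ht
  obtain ⟨h2, ht⟩ := band_eq ht
  obtain ⟨h3, ht⟩ := band_eq ht
  obtain ⟨h4, ht⟩ := band_eq ht
  obtain ⟨h5, ht⟩ := band_eq ht
  obtain ⟨h6, ht⟩ := band_eq ht
  obtain ⟨h7, h8⟩ := band_eq ht
  exact ⟨⟨mem_of_le h.a h2, mem_of_le h.b h3, mem_of_le h.be h4, mem_of_le h.yr h5,
    mem_of_le h.ad h6, mem_of_le h.bd h7, mem_of_le h.bed h8⟩, neg_of_isNeg hl h1⟩

theorem good_bad (x : RRes) : Good x badRes := by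
  intro t ht
  obtain ⟨h1, _⟩ := band_eq ht
  exact absurd (show false = true from h1) (by simp)

theorem good_chk {a : ℝ} {A : I} (_ha : mem a A) {x : RRes} {X : Res}
    (h : isPos A = true → Good x X) : Good x (chk A X) := by
  cases A with
  | neg l u => exact good_bad x
  | mix l u => exact good_bad x
  | pos l u =>
    change Good x (chkP l u X)
    unfold chkP
    cases e : Nat.ble 1 l with
    | false => exact good_bad x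
    | true => exact h e

theorem mem_brec (e : Bool) {a b : ℝ} {A B : I} (ha : mem a A) (hb : mem b B) :
    mem (Bool.rec (motive := fun _ => ℝ) a b e) (Bool.rec (motive := fun _ => I) A B e) := by
  cases e with
  | false => exact ha
  | true => exact hb

theorem isPos_den {sa sb : Nat} {X : C2} (hp : isPos X.r = true) :
    isPos (I.add X.r (I.mul (I.pos sa sb) (I.mul (I.sqr X.i) (I.inv X.r)))) = true := by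
  obtain ⟨A, B⟩ := X
  cases A with
  | neg l u => exact absurd (show false = true from hp) (by simp)
  | mix l u => exact absurd (show false = true from hp) (by simp)
  | pos l u =>
    have h1 : 1 ≤ l := Nat.le_of_ble_eq_true hp
    cases B with
    | neg l' u' => exact Nat.ble_eq_true_of_le (Nat.le_trans h1 (Nat.le_add_left _ _))
    | mix l' u' => exact Nat.ble_eq_true_of_le (Nat.le_trans h1 (Nat.le_add_left _ _))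
    | pos l' u' => exact Nat.ble_eq_true_of_le (Nat.le_trans h1 (Nat.le_add_left _ _))

theorem mC_mul {s : ℝ} {s_ : I} (hs : mem s s_) {x : RC} {x_ : C2} (hx : memC x x_) {y : RC} {y_
    : C2} (hy : memC y y_) : memC (RC.mul s x y) (C2.mul s_ x_ y_) :=
  (memC.mk (mem_sub (mem_mul hx.r hy.r) (mem_mul hs (mem_mul hx.i hy.i))) (mem_add (mem_mul hx.r
    hy.i) (mem_mul hx.i hy.r)))

theorem mC_sc {k : ℝ} {k_ : I} (hk : mem k k_) {x : RC} {x_ : C2} (hx : memC x x_) : memC (RC.sc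
    k x) (C2.sc k_ x_) :=
  (memC.mk (mem_mul hk hx.r) (mem_mul hk hx.i))

theorem mC_add {x : RC} {x_ : C2} (hx : memC x x_) {y : RC} {y_ : C2} (hy : memC y y_) : memC
    (RC.add x y) (C2.add x_ y_) :=
  (memC.mk (mem_add hx.r hy.r) (mem_add hx.i hy.i))

theorem mC_inv2 {ir : ℝ} {ir_ : I} (hir : mem ir ir_) {qr : ℝ} {qr_ : I} (hqr : mem qr qr_) {x :
    RC} {x_ : C2} (hx : memC x x_) : memC (RC.inv2 ir qr x) (C2.inv2 ir_ qr_ x_) :=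
  (memC.mk hqr (mem_opp (mem_mul (mem_mul hx.i hir) hqr)))

theorem mC_inv {s : ℝ} {sa sb : Nat} (hs : mem s (I.pos sa sb))
    {x : RC} {x_ : C2} (hx : memC x x_) (hp : isPos x_.r = true) :
    memC (RC.inv s x) (C2.inv (I.pos sa sb) x_) :=
  mC_inv2 (mem_inv hx.r hp).1
    (mem_inv (mem_add hx.r (mem_mul hs (mem_mul (mem_sqr hx.i) (mem_inv hx.r hp).1)))
      (isPos_den hp)).1 hx

theorem m_mulca {s : ℝ} {s_ : I} (hs : mem s s_) (eps : Bool) {x : RC} {x_ : C2} (hx : memC x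
    x_) : memC (r_mulca s eps x) (mulca s_ eps x_) :=
  (memC.mk (mem_sub (mem_sg eps hx.r) (mem_mul hs hx.i)) (mem_add hx.r (mem_sg eps hx.i)))

theorem m_mulcb {s : ℝ} {s_ : I} (hs : mem s s_) (eps : Bool) {x : RC} {x_ : C2} (hx : memC x
    x_) : memC (r_mulcb s eps x) (mulcb s_ eps x_) :=
  (memC.mk (mem_sub (mem_opp (mem_sg eps (mem_mul hs hx.r))) (mem_mul hs hx.i)) (mem_sub hx.r
    (mem_sg eps (mem_mul hs hx.i))))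

theorem m_final (cj : Bool) {w : RC} {w_ : C2} (hw : memC w w_) {yQ : RC} {yQ_ : C2} (hyQ : memC
    yQ yQ_) {Za : RC} {Za_ : C2} (hZa : memC Za Za_) {Zb : RC} {Zb_ : C2} (hZb : memC Zb Zb_)
    {Zg : RC} {Zg_ : C2} (hZg : memC Zg Zg_) {Zc : RC} {Zc_ : C2} (hZc : memC Zc Zc_) {Ba : ℝ}
    {Ba_ : I} (hBa : mem Ba Ba_) {Bb : ℝ} {Bb_ : I} (hBb : mem Bb Bb_) {Bg : ℝ} {Bg_ : I} (hBg :
    mem Bg Bg_) {Bc : ℝ} {Bc_ : I} (hBc : mem Bc Bc_) {La : ℝ} {La_ : I} (hLa : mem La La_) {Lb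
    : ℝ} {Lb_ : I} (hLb : mem Lb Lb_) {Lg : ℝ} {Lg_ : I} (hLg : mem Lg Lg_) {Lc : ℝ} {Lc_ : I}
    (hLc : mem Lc Lc_) {z : RSt} {z_ : St} (hz : memSt z z_) : Good (r_final cj w yQ Za Zb Zg Zc
    Ba Bb Bg Bc La Lb Lg Lc z) (final cj w_ yQ_ Za_ Zb_ Zg_ Zc_ Ba_ Bb_ Bg_ Bc_ La_ Lb_ Lg_ Lc_
    z_) :=
  (good_mk (memSt.mk hw.r (mem_sg cj hw.i) (mem_sg cj hyQ.i) hyQ.r (mem_add (mem_add (mem_mul
    hZa.r hz.ad) (mem_mul hZb.r hz.bd)) (mem_add (mem_mul hZg.r hz.bed) hZc.r)) (mem_sg cj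
    (mem_add (mem_add (mem_mul hZa.i hz.ad) (mem_mul hZb.i hz.bd)) (mem_add (mem_mul hZg.i
    hz.bed) hZc.i))) (mem_sg cj (mem_add (mem_add (mem_mul hBa hz.ad) (mem_mul hBb hz.bd))
    (mem_add (mem_mul hBg hz.bed) hBc)))) (mem_add (mem_add (mem_mul hLa hz.ad) (mem_mul hLb
    hz.bd)) (mem_add (mem_mul hLg hz.bed) hLc)))

theorem m_imm {yQ : RC} {yQ_ : C2} (hyQ : memC yQ yQ_) {q : RC} {q_ : C2} (hq : memC q q_) : mem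
    (r_imm yQ q) (imm yQ_ q_) :=
  (mem_opp (mem_add (mem_mul hyQ.r hq.i) (mem_mul hyQ.i hq.r)))

theorem m_ph5 {s1 : ℝ} {s1_ : I} (hs1 : mem s1 s1_) (cj : Bool) {z : RSt} {z_ : St} (hz : memSt
    z z_) {w : RC} {w_ : C2} (hw : memC w w_) {yQ : RC} {yQ_ : C2} (hyQ : memC yQ yQ_) {Za : RC}
    {Za_ : C2} (hZa : memC Za Za_) {Zb : RC} {Zb_ : C2} (hZb : memC Zb Zb_) {Zg : RC} {Zg_ : C2}
    (hZg : memC Zg Zg_) {Zc : RC} {Zc_ : C2} (hZc : memC Zc Zc_) {qa : RC} {qa_ : C2} (hqa :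
    memC qa qa_) {qb : RC} {qb_ : C2} (hqb : memC qb qb_) {qg : RC} {qg_ : C2} (hqg : memC qg
    qg_) {qc : RC} {qc_ : C2} (hqc : memC qc qc_) {QiDi : ℝ} {QiDi_ : I} (hQiDi : mem QiDi
    QiDi_) : Good (r_ph5 s1 cj z w yQ Za Zb Zg Zc qa qb qg qc QiDi) (ph5 s1_ cj z_ w_ yQ_ Za_
    Zb_ Zg_ Zc_ qa_ qb_ qg_ qc_ QiDi_) :=
  (m_final cj hw hyQ hZa hZb hZg hZc (m_imm hyQ hqa) (m_imm hyQ hqb) (m_imm hyQ hqg) (mem_sub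
    (m_imm hyQ hqc) (mem_mul hs1 (mem_mul hQiDi hyQ.i))) (mem_dbl hqa.r) (mem_dbl hqb.r)
    (mem_dbl hqg.r) (mem_sub (mem_add (mem_dbl hqc.r) (mem_mul hs1 hQiDi)) mem_one) hz)

theorem m_cg {s : ℝ} {s_ : I} (hs : mem s s_) {e1 : ℝ} {e1_ : I} (he1 : mem e1 e1_) {Yg : ℝ}
    {Yg_ : I} (hYg : mem Yg Yg_) {V : RC} {V_ : C2} (hV : memC V V_) : memC (r_cg s e1 Yg V) (cg
    s_ e1_ Yg_ V_) :=
  (memC.mk (mem_sub (mem_mul hYg hV.r) (mem_mul hs (mem_mul he1 hV.i))) (mem_add (mem_mul hYg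
    hV.i) (mem_mul he1 hV.r)))

theorem m_cc {s : ℝ} {s_ : I} (hs : mem s s_) {c0 : ℝ} {c0_ : I} (hc0 : mem c0 c0_) {Ycr : ℝ}
    {Ycr_ : I} (hYcr : mem Ycr Ycr_) {Yci : ℝ} {Yci_ : I} (hYci : mem Yci Yci_) {U : RC} {U_ :
    C2} (hU : memC U U_) {V : RC} {V_ : C2} (hV : memC V V_) : memC (r_cc s c0 Ycr Yci U V) (cc
    s_ c0_ Ycr_ Yci_ U_ V_) :=
  (memC.mk (mem_add (mem_mul hU.r hc0) (mem_sub (mem_mul hV.r hYcr) (mem_mul hs (mem_mul hV.i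
    hYci)))) (mem_add (mem_mul hU.i hc0) (mem_add (mem_mul hV.r hYci) (mem_mul hV.i hYcr))))

theorem m_ph4 {s : ℝ} {sa sb : Nat} (hs : mem s (I.pos sa sb)) {s1 : ℝ} {s1_ : I} (hs1 : mem s1
    s1_) (eps : Bool) (cj : Bool) {z : RSt} {z_ : St} (hz : memSt z z_) {w : RC} {w_ : C2} (hw :
    memC w w_) {yQ : RC} {yQ_ : C2} (hyQ : memC yQ yQ_) {D : RC} {D_ : C2} (hD : memC D D_) {Q :
    RC} {Q_ : C2} (hQ : memC Q Q_) {UQ : RC} {UQ_ : C2} (hUQ : memC UQ UQ_) {VQ : RC} {VQ_ : C2}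
    (hVQ : memC VQ VQ_) {qU : RC} {qU_ : C2} (hqU : memC qU qU_) {qV : RC} {qV_ : C2} (hqV :
    memC qV qV_) {Ya : ℝ} {Ya_ : I} (hYa : mem Ya Ya_) {Yb : ℝ} {Yb_ : I} (hYb : mem Yb Yb_) {Yg
    : ℝ} {Yg_ : I} (hYg : mem Yg Yg_) {Ycr : ℝ} {Ycr_ : I} (hYcr : mem Ycr Ycr_) {Yci : ℝ} {Yci_
    : I} (hYci : mem Yci Yci_) {c0 : ℝ} {c0_ : I} (hc0 : mem c0 c0_) {e1 : ℝ} {e1_ : I} (he1 :
    mem e1 e1_) : Good (r_ph4 s s1 eps cj z w yQ D Q UQ VQ qU qV Ya Yb Yg Ycr Yci c0 e1) (ph4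
    (I.pos sa sb) s1_ eps cj z_ w_ yQ_ D_ Q_ UQ_ VQ_ qU_ qV_ Ya_ Yb_ Yg_ Ycr_ Yci_ c0_ e1_) :=
  (m_ph5 hs1 cj hz hw hyQ (mC_add (m_mulca hs eps hUQ) (mC_sc hYa hVQ)) (mC_add (m_mulcb hs eps
    hUQ) (mC_sc hYb hVQ)) (m_cg hs he1 hYg hVQ) (mC_add (m_cc hs hc0 hYcr hYci hUQ hVQ) (mC_sc
    (mem_mul hs1 (mem_mul hw.i hD.i)) hQ)) (mC_add (m_mulca hs eps hqU) (mC_sc hYa hqV)) (mC_add
    (m_mulcb hs eps hqU) (mC_sc hYb hqV)) (m_cg hs he1 hYg hqV) (m_cc hs hc0 hYcr hYci hqU hqV)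
    (mem_opp (mem_mul hQ.i hD.i)))

theorem m_ph3 {s : ℝ} {sa sb : Nat} (hs : mem s (I.pos sa sb)) {s1 : ℝ} {s1_ : I} (hs1 : mem s1
    s1_) (eps : Bool) (cj : Bool) {z : RSt} {z_ : St} (hz : memSt z z_) {p : RPr} {p_ : Pr} (hp
    : memPr p p_) {R2 : ℝ} {R2_ : I} (hR2 : mem R2 R2_) {Sg : ℝ} {Sg_ : I} (hSg : mem Sg Sg_)
    {SR : ℝ} {SR_ : I} (hSR : mem SR SR_) {yr : ℝ} {yr_ : I} (hyr : mem yr yr_) {Yi : ℝ} {Yi_ :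
    I} (hYi : mem Yi Yi_) {ya2 : ℝ} {ya2_ : I} (hya2 : mem ya2 ya2_) {be2 : ℝ} {be2_ : I} (hbe2
    : mem be2 be2_) {b2 : ℝ} {b2_ : I} (hb2 : mem b2 b2_) {w : RC} {w_ : C2} (hw : memC w w_)
    {yQ : RC} {yQ_ : C2} (hyQ : memC yQ yQ_) {D : RC} {D_ : C2} (hD : memC D D_) {Q : RC} {Q_ :
    C2} (hQ : memC Q Q_) {dl : ℝ} {dl_ : I} (hdl : mem dl dl_) {ep : ℝ} {ep_ : I} (hep : mem ep
    ep_) {iv : ℝ} {iv_ : I} (hiv : mem iv iv_) : Good (r_ph3 s s1 eps cj z p R2 Sg SR yr Yi ya2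
    be2 b2 w yQ D Q dl ep iv) (ph3 (I.pos sa sb) s1_ eps cj z_ p_ R2_ Sg_ SR_ yr_ Yi_ ya2_ be2_
    b2_ w_ yQ_ D_ Q_ dl_ ep_ iv_) :=
  (m_ph4 hs hs1 eps cj hz hw hyQ hD hQ (mC_mul hs (memC.mk (mem_sub (mem_mul (mem_sub hR2 hp.Sb)
    hp.g) (mem_mul hdl hw.r)) (mem_opp (mem_mul hdl hw.i))) hQ) (mC_mul hs (memC.mk (mem_sub
    (mem_opp hSR) (mem_mul hep hw.r)) (mem_opp (mem_mul hep hw.i))) hQ) (mC_sc hdl hQ) (mC_sc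
    hep hQ) (mem_mul hs1 (mem_mul (mem_dbl hz.a) hiv)) (mem_mul hs1 (mem_mul (mem_dbl (mem_mul
    hs hz.b)) hiv)) (mem_mul hs1 (mem_mul hs (mem_mul (mem_sub (mem_dbl (mem_mul hSg (mem_mul
    hs1 hz.be))) hp.b0) hiv))) (mem_mul hs1 (mem_add hyr (mem_mul hs1 (mem_mul (mem_sub (mem_add
    hb2 (mem_mul hSg (mem_add hya2 (mem_mul hs1 hbe2)))) (mem_mul hp.b0 hz.be)) hiv)))) hYi
    (mem_opp (mem_sg eps (mem_mul hs1 hz.b))) (mem_sg eps hs1))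

theorem m_ph2d {s : ℝ} {sa sb : Nat} (hs : mem s (I.pos sa sb)) {s1 : ℝ} {s1_ : I} (hs1 : mem s1
    s1_) (eps : Bool) (cj : Bool) {z : RSt} {z_ : St} (hz : memSt z z_) {p : RPr} {p_ : Pr} (hp
    : memPr p p_) {R2 : ℝ} {R2_ : I} (hR2 : mem R2 R2_) {Sg : ℝ} {Sg_ : I} (hSg : mem Sg Sg_)
    {SR : ℝ} {SR_ : I} (hSR : mem SR SR_) {yr : ℝ} {yr_ : I} (hyr : mem yr yr_) {Yi : ℝ} {Yi_ :
    I} (hYi : mem Yi Yi_) {ya2 : ℝ} {ya2_ : I} (hya2 : mem ya2 ya2_) {be2 : ℝ} {be2_ : I} (hbe2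
    : mem be2 be2_) {b2 : ℝ} {b2_ : I} (hb2 : mem b2 b2_) {n1 : RC} {n1_ : C2} (hn1 : memC n1
    n1_) {G : RC} {G_ : C2} (hG : memC G G_) {D : RC} {D_ : C2} (hD : memC D D_) {Q : RC} {Q_ :
    C2} (hQ : memC Q Q_) {yf : ℝ} {yf_ : I} (hyf : mem yf yf_) {dl : ℝ} {dl_ : I} (hdl : mem dl
    dl_) {ep : ℝ} {ep_ : I} (hep : mem ep ep_) {v : ℝ} {v_ : I} (hv : mem v v_) : Good (r_ph2d s
    s1 eps cj z p R2 Sg SR yr Yi ya2 be2 b2 n1 G D Q yf dl ep v) (ph2d (I.pos sa sb) s1_ eps cj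
    z_ p_ R2_ Sg_ SR_ yr_ Yi_ ya2_ be2_ b2_ n1_ G_ D_ Q_ yf_ dl_ ep_ v_) :=
  (good_chk hG.r (fun hp0 => (good_chk hv (fun hp1 => (m_ph3 hs hs1 eps cj hz hp hR2 hSg hSR hyr
    hYi hya2 hbe2 hb2 (mC_mul hs hn1 (mC_inv hs hG hp0)) (mC_sc hyf hQ) hD hQ hdl hep ((mem_inv
    hv hp1).1))))))

theorem m_ph2b {s : ℝ} {sa sb : Nat} (hs : mem s (I.pos sa sb)) {s1 : ℝ} {s1_ : I} (hs1 : mem s1
    s1_) (eps : Bool) (cj : Bool) {z : RSt} {z_ : St} (hz : memSt z z_) {p : RPr} {p_ : Pr} (hp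
    : memPr p p_) {R2 : ℝ} {R2_ : I} (hR2 : mem R2 R2_) {Sg : ℝ} {Sg_ : I} (hSg : mem Sg Sg_)
    {SR : ℝ} {SR_ : I} (hSR : mem SR SR_) {yr : ℝ} {yr_ : I} (hyr : mem yr yr_) {Yr : ℝ} {Yr_ :
    I} (hYr : mem Yr Yr_) {Yi : ℝ} {Yi_ : I} (hYi : mem Yi Yi_) {ya2 : ℝ} {ya2_ : I} (hya2 : mem
    ya2 ya2_) {be2 : ℝ} {be2_ : I} (hbe2 : mem be2 be2_) {b2 : ℝ} {b2_ : I} (hb2 : mem b2 b2_)
    {n1 : RC} {n1_ : C2} (hn1 : memC n1 n1_) {G : RC} {G_ : C2} (hG : memC G G_) {D : RC} {D_ :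
    C2} (hD : memC D D_) {yf : ℝ} {yf_ : I} (hyf : mem yf yf_) {dl : ℝ} {dl_ : I} (hdl : mem dl
    dl_) {ep : ℝ} {ep_ : I} (hep : mem ep ep_) : Good (r_ph2b s s1 eps cj z p R2 Sg SR yr Yr Yi
    ya2 be2 b2 n1 G D yf dl ep) (ph2b (I.pos sa sb) s1_ eps cj z_ p_ R2_ Sg_ SR_ yr_ Yr_ Yi_
    ya2_ be2_ b2_ n1_ G_ D_ yf_ dl_ ep_) :=
  (good_chk hD.r (fun hp0 => (m_ph2d hs hs1 eps cj hz hp hR2 hSg hSR hyr hYi hya2 hbe2 hb2 hn1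
    hG hD (mC_inv hs hD hp0) hyf hdl hep (mem_sub mem_one (mem_dbl (mem_mul hSg hYr))))))

theorem m_ph2a {s : ℝ} {sa sb : Nat} (hs : mem s (I.pos sa sb)) {s1 : ℝ} {s1_ : I} (hs1 : mem s1
    s1_) (eps : Bool) (cj : Bool) {z : RSt} {z_ : St} (hz : memSt z z_) {p : RPr} {p_ : Pr} (hp
    : memPr p p_) {R2 : ℝ} {R2_ : I} (hR2 : mem R2 R2_) {Sg : ℝ} {Sg_ : I} (hSg : mem Sg Sg_)
    {SR : ℝ} {SR_ : I} (hSR : mem SR SR_) {yr : ℝ} {yr_ : I} (hyr : mem yr yr_) {Yr : ℝ} {Yr_ :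
    I} (hYr : mem Yr Yr_) {Yi : ℝ} {Yi_ : I} (hYi : mem Yi Yi_) {ya2 : ℝ} {ya2_ : I} (hya2 : mem
    ya2 ya2_) {be2 : ℝ} {be2_ : I} (hbe2 : mem be2 be2_) {b2 : ℝ} {b2_ : I} (hb2 : mem b2 b2_)
    {Xr : ℝ} {Xr_ : I} (hXr : mem Xr Xr_) {Xi : ℝ} {Xi_ : I} (hXi : mem Xi Xi_) {Cr : ℝ} {Cr_ :
    I} (hCr : mem Cr Cr_) {Ci : ℝ} {Ci_ : I} (hCi : mem Ci Ci_) {n1 : RC} {n1_ : C2} (hn1 : memC
    n1 n1_) {G : RC} {G_ : C2} (hG : memC G G_) {yf : ℝ} {yf_ : I} (hyf : mem yf yf_) {dl : ℝ}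
    {dl_ : I} (hdl : mem dl dl_) {ep : ℝ} {ep_ : I} (hep : mem ep ep_) : Good (r_ph2a s s1 eps
    cj z p R2 Sg SR yr Yr Yi ya2 be2 b2 Xr Xi Cr Ci n1 G yf dl ep) (ph2a (I.pos sa sb) s1_ eps
    cj z_ p_ R2_ Sg_ SR_ yr_ Yr_ Yi_ ya2_ be2_ b2_ Xr_ Xi_ Cr_ Ci_ n1_ G_ yf_ dl_ ep_) :=
  (m_ph2b hs hs1 eps cj hz hp hR2 hSg hSR hyr hYr hYi hya2 hbe2 hb2 hn1 hG (memC.mk (mem_add
    mem_one (mem_add (mem_mul hdl hXr) (mem_add (mem_mul hep hYr) hCr))) (mem_add (mem_mul hdl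
    hXi) (mem_add (mem_mul hep hYi) hCi))) hyf hdl hep)

theorem m_ph2 {s : ℝ} {sa sb : Nat} (hs : mem s (I.pos sa sb)) {s1 : ℝ} {s1_ : I} (hs1 : mem s1
    s1_) (eps : Bool) (cj : Bool) {z : RSt} {z_ : St} (hz : memSt z z_) {p : RPr} {p_ : Pr} (hp
    : memPr p p_) {R : ℝ} {R_ : I} (hR : mem R R_) {R2 : ℝ} {R2_ : I} (hR2 : mem R2 R2_) {rh :
    ℝ} {rh_ : I} (hrh : mem rh rh_) {rh2 : ℝ} {rh2_ : I} (hrh2 : mem rh2 rh2_) {Sg : ℝ} {Sg_ :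
    I} (hSg : mem Sg Sg_) {SR : ℝ} {SR_ : I} (hSR : mem SR SR_) {yr : ℝ} {yr_ : I} (hyr : mem yr
    yr_) {Yr : ℝ} {Yr_ : I} (hYr : mem Yr Yr_) {Yi : ℝ} {Yi_ : I} (hYi : mem Yi Yi_) {ya2 : ℝ}
    {ya2_ : I} (hya2 : mem ya2 ya2_) {be2 : ℝ} {be2_ : I} (hbe2 : mem be2 be2_) {b2 : ℝ} {b2_ :
    I} (hb2 : mem b2 b2_) {Xr : ℝ} {Xr_ : I} (hXr : mem Xr Xr_) {Xi : ℝ} {Xi_ : I} (hXi : mem Xi
    Xi_) {Cr : ℝ} {Cr_ : I} (hCr : mem Cr Cr_) {Ci : ℝ} {Ci_ : I} (hCi : mem Ci Ci_) {iM : RC}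
    {iM_ : C2} (hiM : memC iM iM_) {M : RC} {M_ : C2} (hM : memC M M_) {eta : RC} {eta_ : C2}
    (heta : memC eta eta_) {e1 : RC} {e1_ : C2} (he1 : memC e1 e1_) {yf : ℝ} {yf_ : I} (hyf :
    mem yf yf_) : Good (r_ph2 s s1 eps cj z p R R2 rh rh2 Sg SR yr Yr Yi ya2 be2 b2 Xr Xi Cr Ci
    iM M eta e1 yf) (ph2 (I.pos sa sb) s1_ eps cj z_ p_ R_ R2_ rh_ rh2_ Sg_ SR_ yr_ Yr_ Yi_ ya2_
    be2_ b2_ Xr_ Xi_ Cr_ Ci_ iM_ M_ eta_ e1_ yf_) :=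
  (m_ph2a hs hs1 eps cj hz hp hR2 hSg hSR hyr hYr hYi hya2 hbe2 hb2 hXr hXi hCr hCi (mC_add
    (mC_mul hs he1 hiM) (memC.mk hR mem_zero)) (mC_add hM (mC_mul hs heta hiM)) hyf (mem_dbl
    hrh) (mem_sub hrh2 hSg))

theorem m_ph1b {s : ℝ} {sa sb : Nat} (hs : mem s (I.pos sa sb)) {s1 : ℝ} {s1_ : I} (hs1 : mem s1
    s1_) (eps : Bool) (cj : Bool) (even : Bool) {z : RSt} {z_ : St} (hz : memSt z z_) {p : RPr}
    {p_ : Pr} (hp : memPr p p_) {R : ℝ} {R_ : I} (hR : mem R R_) {R2 : ℝ} {R2_ : I} (hR2 : mem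
    R2 R2_) {rh : ℝ} {rh_ : I} (hrh : mem rh rh_) {rh2 : ℝ} {rh2_ : I} (hrh2 : mem rh2 rh2_) {Sg
    : ℝ} {Sg_ : I} (hSg : mem Sg Sg_) {SR : ℝ} {SR_ : I} (hSR : mem SR SR_) {b2 : ℝ} {b2_ : I}
    (hb2 : mem b2 b2_) {be2 : ℝ} {be2_ : I} (hbe2 : mem be2 be2_) {ya2 : ℝ} {ya2_ : I} (hya2 :
    mem ya2 ya2_) {zet : ℝ} {zet_ : I} (hzet : mem zet zet_) {yr : ℝ} {yr_ : I} (hyr : mem yr
    yr_) {Xr : ℝ} {Xr_ : I} (hXr : mem Xr Xr_) {Xi : ℝ} {Xi_ : I} (hXi : mem Xi Xi_) {be : ℝ}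
    {be_ : I} (hbe : mem be be_) {Cr : ℝ} {Cr_ : I} (hCr : mem Cr Cr_) {Ci : ℝ} {Ci_ : I} (hCi :
    mem Ci Ci_) {M : RC} {M_ : C2} (hM : memC M M_) {Yr : ℝ} {Yr_ : I} (hYr : mem Yr Yr_) {Yi :
    ℝ} {Yi_ : I} (hYi : mem Yi Yi_) : Good (r_ph1b s s1 eps cj even z p R R2 rh rh2 Sg SR b2 be2
    ya2 zet yr Xr Xi be Cr Ci M Yr Yi) (ph1b (I.pos sa sb) s1_ eps cj even z_ p_ R_ R2_ rh_ rh2_
    Sg_ SR_ b2_ be2_ ya2_ zet_ yr_ Xr_ Xi_ be_ Cr_ Ci_ M_ Yr_ Yi_) :=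
  (good_chk hM.r (fun hp0 => (m_ph2 hs hs1 eps cj hz hp hR hR2 hrh hrh2 hSg hSR hyr hYr hYi hya2
    hbe2 hb2 hXr hXi hCr hCi (mC_inv hs hM hp0) hM (memC.mk (mem_add (mem_sub (mem_mul hrh2
    (mem_add (mem_dbl (mem_mul hs (mem_sqr hXi))) (mem_mul hs1 hzet))) (mem_mul hSg hYr)) hCr)
    (mem_add (mem_sub (mem_mul hrh2 (mem_sub (mem_mul hs1 hbe) (mem_dbl (mem_mul hXr hXi))))
    (mem_mul hSg hYi)) hCi)) (memC.mk (mem_opp (mem_add (mem_mul (mem_mul hp.Sb hp.g) hXr)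
    (mem_mul hSR hYr))) (mem_sub (mem_mul hR (mem_sg eps hp.b0)) (mem_add (mem_mul (mem_mul
    hp.Sb hp.g) hXi) (mem_mul hSR hYi)))) (mem_brec even (mem_mul hp.cr (mem_add hR2 hp.Sb))
    (mem_add hR2 hp.Sb)))))

theorem m_ph1 {s : ℝ} {sa sb : Nat} (hs : mem s (I.pos sa sb)) {s1 : ℝ} {s1_ : I} (hs1 : mem s1
    s1_) (eps : Bool) (cj : Bool) (even : Bool) {z : RSt} {z_ : St} (hz : memSt z z_) {p : RPr}
    {p_ : Pr} (hp : memPr p p_) {R : ℝ} {R_ : I} (hR : mem R R_) {R2 : ℝ} {R2_ : I} (hR2 : mem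
    R2 R2_) {rh : ℝ} {rh_ : I} (hrh : mem rh rh_) {rh2 : ℝ} {rh2_ : I} (hrh2 : mem rh2 rh2_) {Sg
    : ℝ} {Sg_ : I} (hSg : mem Sg Sg_) {SR : ℝ} {SR_ : I} (hSR : mem SR SR_) {b2 : ℝ} {b2_ : I}
    (hb2 : mem b2 b2_) {be2 : ℝ} {be2_ : I} (hbe2 : mem be2 be2_) {ya2 : ℝ} {ya2_ : I} (hya2 :
    mem ya2 ya2_) {zet : ℝ} {zet_ : I} (hzet : mem zet zet_) {yr : ℝ} {yr_ : I} (hyr : mem yr
    yr_) {Xr : ℝ} {Xr_ : I} (hXr : mem Xr Xr_) {Xi : ℝ} {Xi_ : I} (hXi : mem Xi Xi_) {be : ℝ}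
    {be_ : I} (hbe : mem be be_) {Cr : ℝ} {Cr_ : I} (hCr : mem Cr Cr_) {Ci : ℝ} {Ci_ : I} (hCi :
    mem Ci Ci_) : Good (r_ph1 s s1 eps cj even z p R R2 rh rh2 Sg SR b2 be2 ya2 zet yr Xr Xi be
    Cr Ci) (ph1 (I.pos sa sb) s1_ eps cj even z_ p_ R_ R2_ rh_ rh2_ Sg_ SR_ b2_ be2_ ya2_ zet_
    yr_ Xr_ Xi_ be_ Cr_ Ci_) :=
  (m_ph1b hs hs1 eps cj even hz hp hR hR2 hrh hrh2 hSg hSR hb2 hbe2 hya2 hzet hyr hXr hXi hbe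
    hCr hCi (memC.mk (mem_add mem_one (mem_mul hrh hXr)) (mem_mul hrh hXi)) (mem_mul hs1 hyr)
    (mem_mul hs1 hbe))

theorem m_ph0b {s : ℝ} {sa sb : Nat} (hs : mem s (I.pos sa sb)) {s1 : ℝ} {s1_ : I} (hs1 : mem s1
    s1_) (eps : Bool) (even : Bool) {z : RSt} {z_ : St} (hz : memSt z z_) {p : RPr} {p_ : Pr}
    (hp : memPr p p_) {R : ℝ} {R_ : I} (hR : mem R R_) {R2 : ℝ} {R2_ : I} (hR2 : mem R2 R2_) {rh
    : ℝ} {rh_ : I} (hrh : mem rh rh_) {Sg : ℝ} {Sg_ : I} (hSg : mem Sg Sg_) {b2 : ℝ} {b2_ : I}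
    (hb2 : mem b2 b2_) {sb2 : ℝ} {sb2_ : I} (hsb2 : mem sb2 sb2_) {be2 : ℝ} {be2_ : I} (hbe2 :
    mem be2 be2_) {ya2 : ℝ} {ya2_ : I} (hya2 : mem ya2 ya2_) {zet : ℝ} {zet_ : I} (hzet : mem
    zet zet_) : Good (r_ph0b s s1 eps even z p R R2 rh Sg b2 sb2 be2 ya2 zet) (ph0b (I.pos sa
    sb) s1_ eps even z_ p_ R_ R2_ rh_ Sg_ b2_ sb2_ be2_ ya2_ zet_) :=
  (m_ph1 hs hs1 eps (Bool.rec (motive := fun _ => Bool) (Bool.rec (motive := fun _ => Bool) true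
    false eps) eps even) even hz hp hR hR2 hrh (mem_sqr hrh) hSg (mem_dbl (mem_mul hSg hR)) hb2
    hbe2 hya2 hzet (mem_add (mem_add (mem_sqr hz.a) hsb2) hzet) (mem_sg eps (mem_sub hz.a
    (mem_mul hs hz.b))) (mem_add hz.a hz.b) (mem_sg eps hz.be) (mem_brec even hp.Cr mem_zero)
    (mem_sg eps (mem_brec even hp.Ci hp.b0)))

theorem m_ph0a {s : ℝ} {sa sb : Nat} (hs : mem s (I.pos sa sb)) {s1 : ℝ} {s1_ : I} (hs1 : mem s1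
    s1_) (eps : Bool) (even : Bool) {z : RSt} {z_ : St} (hz : memSt z z_) {p : RPr} {p_ : Pr}
    (hp : memPr p p_) {R : ℝ} {R_ : I} (hR : mem R R_) {Sg : ℝ} {Sg_ : I} (hSg : mem Sg Sg_) {b2
    : ℝ} {b2_ : I} (hb2 : mem b2 b2_) {be2 : ℝ} {be2_ : I} (hbe2 : mem be2 be2_) {ya2 : ℝ} {ya2_
    : I} (hya2 : mem ya2 ya2_) : Good (r_ph0a s s1 eps even z p R Sg b2 be2 ya2) (ph0a (I.pos sa
    sb) s1_ eps even z_ p_ R_ Sg_ b2_ be2_ ya2_) :=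
  (m_ph0b hs hs1 eps even hz hp hR (mem_sqr hR) (mem_mul hR hp.g) hSg hb2 (mem_mul hs hb2) hbe2
    hya2 (mem_sub (mem_add hp.td (mem_mul hs1 (mem_mul hSg hya2))) (mem_mul hs (mem_mul hp.b0
    hz.be))))

theorem m_ph0 {s : ℝ} {sa sb : Nat} (hs : mem s (I.pos sa sb)) {s1 : ℝ} {s1_ : I} (hs1 : mem s1
    s1_) (eps : Bool) (even : Bool) {z : RSt} {z_ : St} (hz : memSt z z_) {p : RPr} {p_ : Pr}
    (hp : memPr p p_) {R : ℝ} {R_ : I} (hR : mem R R_) {Sg : ℝ} {Sg_ : I} (hSg : mem Sg Sg_) {b2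
    : ℝ} {b2_ : I} (hb2 : mem b2 b2_) {be2 : ℝ} {be2_ : I} (hbe2 : mem be2 be2_) : Good (r_ph0 s
    s1 eps even z p R Sg b2 be2) (ph0 (I.pos sa sb) s1_ eps even z_ p_ R_ Sg_ b2_ be2_) :=
  (m_ph0a hs hs1 eps even hz hp hR hSg hb2 hbe2 (mem_add (mem_sqr hz.yr) (mem_mul hs hbe2)))

theorem m_step {s : ℝ} {sa sb : Nat} (hs : mem s (I.pos sa sb)) (eps : Bool) (even : Bool) {z :
    RSt} {z_ : St} (hz : memSt z z_) {p : RPr} {p_ : Pr} (hp : memPr p p_) {R : ℝ} {R_ : I} (hR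
    : mem R R_) : Good (r_step s eps even z p R) (step (I.pos sa sb) eps even z_ p_ R_) :=
  (m_ph0 hs (mem_add mem_one hs) eps even hz hp hR (mem_mul hp.Sb (mem_sqr hp.g)) (mem_sqr hz.b)
    (mem_sqr hz.be))

end Pool.Agent.Helper6.MONO
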